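import Pool.Agent.Lib.MP_d8f801_lc.SC.N.Names
import Pool.Agent.Lib.MP_d8f801_lc.SC.G.StepGen

/-!
# SC/N: deciding all names in `N` at `0` and genericity (module N-DecGn)

* `gn_dec`: `gn_val` for `N' = N`, `γ = ⊥` (`Gd.b`, `Gd.ev`, `bot_lt_kk`).
* `dec_gn`. For every `y` let `A y` be a small predense antichain of conditions `s` with `Dci ty y s` (`exists_predense`, `dci_dense`); it is not empty (it is predense and `emp` is a condition); let `e y : X → Pre X` be a function with `e y '' Iio kk = A y` (`Sm`: `#(A y) < #(Iio kk)`). Let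
  `l ν v = RO.gen {p | Le p.1 (e y v)}` if `ν < kk`, `v < kk` and `e y u ≠ e y v` for all `u < v`, and `⊥` otherwise: `IsFnK l` (`tot`: `A y` is predense, and every element of `A y` is `e y v` for a least `v`; `disj`: `A y` is an antichain). Let `ζ y` be the code (`hn_onto`): `hn ty (ζ y) = l`.
  `N` is closed under `ζ` and under `(y, v) ↦ cd (e y v)` (`club_fn`, `club_fn2`), `Gd ty N`. Let `Dec (hn ty) N p`. For `y ∈ N` there is `v ∈ N` with `p ∈ hn ty (ζ y) ⊥ v`; this is not `⊥`, so `v < kk`, and with `τ = e y v`: `Cd ty N τ`, `Dci ty y τ`, so `DciN ty N y τ` (`Gd.dec`), and every `q ≤ p` has an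
  extension `r` with `Le r.1 τ` (`p ∈ RO.gen ..`). Let `y n` (`n : ℕ`) enumerate `N` (countable, nonempty) and choose `p = p 0 ≥ p 1 ≥ ...` with `p (n + 1)` below the `τ` of `y n`; `lim_seq` gives `p'`; `Gn ty N p'`.
-/

set_option autoImplicit false

universe u

namespace Pool.MP_d8f801_lc.SC

open Cardinal Set Filter Pool.Agent.Lib.MP_4d8715_gt.KR

variable {X : Type u} [Stg X]

theorem gn_dec (ty : Bool) : ∀ᶠ N in club X, ∀ p : PP X ty, Gn ty N p.1 → Dec (hn ty) N p := by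
  filter_upwards [gd_club ty] with N hN p hp ξ hξ
  exact gn_val hN.b hp bot_lt_kk (hN.ev ξ hξ ⊥ hN.b)

/-- the name given by an antichain -/
private theorem DecGn_name {ty : Bool} (e : X → Pre X)
    (h1 : ∀ u v : X, u < kk → v < kk → e u ≠ e v → ¬ ∃ r, Ok ty r ∧ Le r (e u) ∧ Le r (e v))
    (h1' : ∀ v : X, v < kk → Ok ty (e v))
    (h2 : ∀ p, Ok ty p → ∃ v : X, v < kk ∧ ∃ r, Ok ty r ∧ Le r p ∧ Le r (e v)) :
    ∃ ζ : X, ∀ v : X, ∀ p : PP X ty, p ∈ (hn ty ζ ⊥ v).carrier →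
      v < kk ∧ ∀ q : PP X ty, q ≤ p → ∃ r : PP X ty, r ≤ q ∧ Le r.1 (e v) := by
  classical
  obtain ⟨l, hl, hl0⟩ : ∃ l : X → X → RO (PP X ty),
      (∀ ν v : X, ν < kk → v < kk → (∀ u < v, e u ≠ e v) →
        l ν v = RO.gen {p : PP X ty | Le p.1 (e v)}) ∧
      ∀ ν v : X, ¬ (ν < kk ∧ v < kk ∧ ∀ u < v, e u ≠ e v) → l ν v = ⊥ :=
    ⟨fun ν v => if ν < kk ∧ v < kk ∧ ∀ u < v, e u ≠ e v then RO.gen {p : PP X ty | Le p.1 (e v)} else ⊥,
      fun ν v h3 h4 h5 => if_pos ⟨h3, h4, h5⟩, fun ν v h3 => if_neg h3⟩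
  have hgen : ∀ v : X, v < kk → ∀ p : PP X ty, p ∈ (RO.gen {p : PP X ty | Le p.1 (e v)}).carrier →
      ∀ q : PP X ty, q ≤ p → ∃ r : PP X ty, r ≤ q ∧ Le r.1 (e v) := by
    intro v hv p hp q hq
    obtain ⟨r, hr, t, ht, hrt⟩ := hp q hq
    exact ⟨r, hr, Le.trans' (h1' v hv).fit (pp_le.1 hrt) ht⟩
  have hIs : IsFnK l := by
    refine ⟨?_, ?_, ?_⟩
    · intro ν v h3
      exact hl0 ν v fun h4 => h3 ⟨h4.1, h4.2.1⟩
    · intro ν hν
      refine top_unique fun p _ => ?_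
      rw [RO.mem_iSup]
      intro q _
      obtain ⟨v, hv, r, hr, hrq, hrv⟩ := h2 q.1 q.2
      have hne : {w : X | w < kk ∧ e w = e v}.Nonempty := ⟨v, hv, rfl⟩
      obtain ⟨hw1, hw2⟩ := Stg.wfl.min_mem {w : X | w < kk ∧ e w = e v} hne
      have hmin : ∀ u, u < Stg.wfl.min {w : X | w < kk ∧ e w = e v} hne →
          u ∉ {w : X | w < kk ∧ e w = e v} := fun u hu h5 =>
        Stg.wfl.not_lt_min {w : X | w < kk ∧ e w = e v} h5 hu
      generalize Stg.wfl.min {w : X | w < kk ∧ e w = e v} hne = w at hw1 hw2 hmin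
      refine ⟨⟨r, hr⟩, hrq, w, ?_⟩
      rw [hl ν w hν hw1 fun u hu h5 => hmin u hu ⟨hu.trans hw1, h5.trans hw2⟩]
      intro s hs
      refine ⟨s, le_rfl, ⟨r, hr⟩, ?_, hs⟩
      show Le r (e w)
      rw [hw2]
      exact hrv
    · intro ν v v' hne
      refine bot_unique fun p hp => ?_
      obtain ⟨hp1, hp2⟩ := RO.mem_inf.1 hp
      by_cases h3 : ν < kk ∧ v < kk ∧ ∀ u < v, e u ≠ e v
      · by_cases h4 : ν < kk ∧ v' < kk ∧ ∀ u < v', e u ≠ e v'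
        · exfalso
          rw [hl ν v h3.1 h3.2.1 h3.2.2] at hp1
          rw [hl ν v' h4.1 h4.2.1 h4.2.2] at hp2
          have h5 : e v ≠ e v' := by
            rcases lt_or_gt_of_ne hne with h6 | h6
            · exact h4.2.2 v h6
            · exact (h3.2.2 v' h6).symm
          obtain ⟨r, hr, hr1⟩ := hgen v h3.2.1 p hp1 p le_rfl
          obtain ⟨r', hr', hr1'⟩ := hgen v' h4.2.1 p hp2 r hr
          exact h1 v v' h3.2.1 h4.2.1 h5 ⟨r'.1, r'.2, Le.trans' (h1' v h3.2.1).fit (pp_le.1 hr') hr1, hr1'⟩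
        · rw [hl0 ν v' h4] at hp2
          exact hp2
      · rw [hl0 ν v h3] at hp1
        exact hp1
  obtain ⟨ζ, hζ⟩ := hn_onto ty l hIs
  refine ⟨ζ, fun v p hp => ?_⟩
  rw [hζ] at hp
  by_cases h3 : (⊥ : X) < kk ∧ v < kk ∧ ∀ u < v, e u ≠ e v
  · rw [hl ⊥ v h3.1 h3.2.1 h3.2.2] at hp
    exact ⟨h3.2.1, hgen v h3.2.1 p hp⟩
  · rw [hl0 ⊥ v h3] at hp
    exact absurd hp (RO.mem_bot p)

/-- a small nonempty set is the image of `κ` -/
private theorem DecGn_enum {A : Set (Pre X)} (hA : Sm X A) (hne : A.Nonempty) :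
    ∃ e : X → Pre X, (∀ v : X, v < kk → e v ∈ A) ∧ ∀ s ∈ A, ∃ v : X, v < kk ∧ e v = s := by
  classical
  obtain ⟨a, ha⟩ := hne
  have h1 : #A ≤ #(Iio (kk : X)) := le_of_lt hA
  obtain ⟨g⟩ := h1
  have : Nonempty ↥A := ⟨⟨a, ha⟩⟩
  have h2 : Function.Surjective (Function.invFun g) := Function.invFun_surjective g.injective
  refine ⟨fun v => if hv : v < kk then (Function.invFun g ⟨v, hv⟩).1 else a, fun v hv => ?_,
    fun s hs => ?_⟩
  · simp only [hv, dite_true]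
    exact (Function.invFun g ⟨v, hv⟩).2
  · obtain ⟨⟨v, hv⟩, hvs⟩ := h2 ⟨s, hs⟩
    have hv' : v < kk := hv
    refine ⟨v, hv', ?_⟩
    simp only [hv', dite_true]
    rw [hvs]

theorem dec_gn (ty : Bool) : ∀ᶠ N in club X, ∀ p : PP X ty, Dec (hn ty) N p → ∃ p' : PP X ty, p' ≤ p ∧ Gn ty N p'.1 := by
  classical
  have hy : ∀ y : X, ∃ (e : X → Pre X) (ζ : X), (∀ v : X, v < kk → Ok ty (e v) ∧ Dci ty y (e v)) ∧
      ∀ v : X, ∀ p : PP X ty, p ∈ (hn ty ζ ⊥ v).carrier →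
        v < kk ∧ ∀ q : PP X ty, q ≤ p → ∃ r : PP X ty, r ≤ q ∧ Le r.1 (e v) := by
    intro y
    obtain ⟨A, hA1, hA2, hA3, hA4⟩ := exists_predense (Dci ty y) (dci_dense ty y)
    have hne : A.Nonempty := by
      obtain ⟨q, hq, -⟩ := hA4 emp (ok_emp ty)
      exact ⟨q, hq⟩
    obtain ⟨e, he1, he2⟩ := DecGn_enum hA1 hne
    obtain ⟨ζ, hζ⟩ := DecGn_name (ty := ty) e
      (fun u v hu hv huv => hA3 _ (he1 u hu) _ (he1 v hv) huv)
      (fun v hv => (hA2 _ (he1 v hv)).1)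
      (fun p hp => by
        obtain ⟨q, hq, r, hr, h1, h2⟩ := hA4 p hp
        obtain ⟨v, hv, hvq⟩ := he2 q hq
        exact ⟨v, hv, r, hr, h1, by rw [hvq]; exact h2⟩)
    exact ⟨e, ζ, fun v hv => hA2 _ (he1 v hv), hζ⟩
  choose e ζ he hζ using hy
  filter_upwards [gd_club ty, club_fn ζ, club_fn2 (fun y v => cd (e y v))] with N hN hNζ hNe p hp
  have hstep : ∀ y ∈ N, ∃ τ, Cd ty N τ ∧ DciN ty N y τ ∧
      ∀ q : PP X ty, q ≤ p → ∃ r : PP X ty, r ≤ q ∧ Le r.1 τ := by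
    intro y hyN
    obtain ⟨v, hvN, hv⟩ := hp (ζ y) (hNζ y hyN)
    obtain ⟨hvk, hv2⟩ := hζ y v p hv
    obtain ⟨h1, h2⟩ := he y v hvk
    have h3 : Cd ty N (e y v) := ⟨h1, hNe y hyN v hvN⟩
    exact ⟨e y v, h3, hN.dec y hyN _ h3 h2, hv2⟩
  obtain ⟨f, hf⟩ := hN.ct.exists_eq_range ⟨⊥, hN.b⟩
  have hfN : ∀ n, f n ∈ N := fun n => by rw [hf]; exact mem_range_self n
  choose τ hτ1 hτ2 hτ3 using fun n => hstep (f n) (hfN n)
  choose g hg1 hg2 using fun (n : ℕ) (q : {q : PP X ty // q ≤ p}) => hτ3 n q.1 q.2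
  obtain ⟨c, hc0, hcs⟩ : ∃ c : ℕ → {q : PP X ty // q ≤ p}, c 0 = ⟨p, le_rfl⟩ ∧
      ∀ n, (c (n + 1)).1 = g n (c n) :=
    ⟨fun n => Nat.rec ⟨p, le_rfl⟩ (fun n q => ⟨g n q, (hg1 n q).trans q.2⟩) n, rfl, fun _ => rfl⟩
  obtain ⟨L, hL1, hL2, -⟩ := lim_seq (ty := ty) (r := fun n => (c n).1.1) (fun n => (c n).1.2)
    (fun n => by
      have h1 : (c (n + 1)).1 ≤ (c n).1 := by
        rw [hcs]
        exact hg1 n (c n)
      exact h1)
  refine ⟨⟨L, hL1⟩, ?_, ?_⟩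
  · have h1 := hL2 0
    simp only [hc0] at h1
    exact h1
  · intro y hyN
    rw [hf] at hyN
    obtain ⟨n, rfl⟩ := hyN
    refine ⟨τ n, hτ1 n, ?_, hτ2 n⟩
    have h1 := hL2 (n + 1)
    have h2 : Le (c (n + 1)).1.1 (τ n) := by
      rw [hcs]
      exact hg2 n (c n)
    exact Le.trans' (hτ1 n).1.fit h1 h2

end Pool.MP_d8f801_lc.SC
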