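import Pool.Agent.Lib.MP_d8f801_lc.SC.V.Intf
import Pool.Agent.Lib.MP_d8f801_lc.SC.G.Defs

/-!
# SC/N: names of functions from `κ` to `κ` (definitions)
-/

set_option autoImplicit false

universe u

namespace Pool.MP_d8f801_lc.SC

open Cardinal Set Filter Pool.Agent.Lib.MP_4d8715_gt.KR

variable {X : Type u} [Stg X]

/-- the Boolean value of `y = v` for a name `y` of an element of `κ` -/
def nmv (ty : Bool) (y v : X) : RO (PP X ty) := RO.gen {p | ∃ s, (s, v) ∈ en y ∧ Ok ty s ∧ Le p.1 s}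

/-- `y` is a name of an element of `κ` -/
structure GoodName (ty : Bool) (y : X) : Prop where
  tot : ⨆ v, nmv ty y v = ⊤
  disj : ∀ v v', v ≠ v' → nmv ty y v ⊓ nmv ty y v' = ⊥
  bd : ∀ v, ¬ v < kk → nmv ty y v = ⊥

open Classical in
/-- the names of functions from `κ` to `κ` -/
noncomputable def hn (ty : Bool) (ξ ν v : X) : RO (PP X ty) :=
  if ν < kk then (if GoodName ty (ev ξ ν) then nmv ty (ev ξ ν) v else if v = ⊥ then ⊤ else ⊥) else ⊥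

theorem mem_nmv {ty : Bool} {y v : X} {p : PP X ty} : p ∈ (nmv ty y v).carrier ↔
    ∀ q, q ≤ p → ∃ r, r ≤ q ∧ ∃ s, (s, v) ∈ en y ∧ Ok ty s ∧ Le r.1 s := by
  constructor
  · intro h q hq
    obtain ⟨r, hr, t, ⟨s, h1, h2, h3⟩, hrt⟩ := h q hq
    exact ⟨r, hr, s, h1, h2, Le.trans' h2.fit hrt h3⟩
  · intro h q hq
    obtain ⟨r, hr, s, h1, h2, h3⟩ := h q hq
    exact ⟨r, hr, r, ⟨s, h1, h2, h3⟩, le_rfl⟩

theorem hn_good {ty : Bool} {ξ ν : X} (hν : ν < kk) (h : GoodName ty (ev ξ ν)) (v : X) :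
    hn ty ξ ν v = nmv ty (ev ξ ν) v := by
  unfold hn
  rw [if_pos hν, if_pos h]

theorem hn_bad {ty : Bool} {ξ ν : X} (hν : ν < kk) (h : ¬ GoodName ty (ev ξ ν)) : hn ty ξ ν ⊥ = ⊤ := by
  unfold hn
  rw [if_pos hν, if_neg h, if_pos rfl]

theorem hn_bad' {ty : Bool} {ξ ν v : X} (h : ¬ GoodName ty (ev ξ ν)) (hv : v ≠ ⊥) : hn ty ξ ν v = ⊥ := by
  unfold hn
  split_ifs <;> rfl

theorem hn_out {ty : Bool} {ξ ν v : X} (hν : ¬ ν < kk) : hn ty ξ ν v = ⊥ := by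
  unfold hn
  rw [if_neg hν]

end Pool.MP_d8f801_lc.SC
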