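import Pool.Agent.Lib.MP_d8f801_lc.SC.N.Names

/-!
# SC/N: the frame (module N-Frame)

`ne`: `emp`. `closed`: `lim_seq`. `cc`: `cc_pre` for the image of `A` under `Subtype.val` (injective, so `#A` is the cardinality of the image). `fn`, `onto`: `hn_fn`, `hn_onto`. `coll`: for `β < kk` let `l i v = RO.gen {p | β ∈ p.x ∧ i ∈ p.x ∧ p.c β i = v}`. Two conditions
`p' ≤ p` with `β i ∈ p.x` have the same `c β i`; so `l i v ⊓ l i v' = ⊥` for `v ≠ v'`, and `⨆ v, l i v = ⊤` because every condition can be extended to one with `β i` in the support (`ex_pt`). For `v < β` `⨆ i, ⨆ (_ : i < w1), l i v = ⊤` by `ex_c`.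
-/

set_option autoImplicit false

universe u

namespace Pool.MP_d8f801_lc.SC

open Cardinal Set Filter Pool.Agent.Lib.MP_4d8715_gt.KR

variable {X : Type u} [Stg X]

private theorem frame_mem {ty : Bool} {β i v : X} {p : PP X ty} :
    p ∈ (RO.gen {p : PP X ty | β ∈ p.1.x ∧ i ∈ p.1.x ∧ p.1.c β i = v}).carrier ↔
      ∀ q, q ≤ p → ∃ r, r ≤ q ∧ (β ∈ r.1.x ∧ i ∈ r.1.x ∧ r.1.c β i = v) := by
  constructor
  · intro h q hq
    obtain ⟨r, hr, t, ⟨h1, h2, h3⟩, hrt⟩ := h q hq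
    exact ⟨r, hr, hrt.x h1, hrt.x h2, (hrt.c β h1 i h2).trans h3⟩
  · intro h q hq
    obtain ⟨r, hr, h1⟩ := h q hq
    exact ⟨r, hr, r, h1, le_rfl⟩

private theorem frame_self {ty : Bool} {β i v : X} {p : PP X ty} (h1 : β ∈ p.1.x) (h2 : i ∈ p.1.x)
    (h3 : p.1.c β i = v) :
    p ∈ (RO.gen {p : PP X ty | β ∈ p.1.x ∧ i ∈ p.1.x ∧ p.1.c β i = v}).carrier :=
  fun q hq => ⟨q, le_rfl, p, ⟨h1, h2, h3⟩, hq⟩

private theorem frame_iSup {P : Type u} [Preorder P] {ι : Sort*} (f : ι → RO P) (i : ι) {p : P}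
    (h : p ∈ (f i).carrier) : p ∈ (⨆ i, f i).carrier :=
  (le_iSup f i) h

theorem frame (ty : Bool) : Frame (PP X ty) (hn (X := X) ty) where
  ne := ⟨⟨emp, ok_emp ty⟩⟩
  closed := by
    intro p hp
    obtain ⟨L, hL, hle, -⟩ := lim_seq (ty := ty) (r := fun n => (p n).1) (fun n => (p n).2)
      (fun n => hp n)
    exact ⟨⟨L, hL⟩, fun n => hle n⟩
  cc := by
    intro A hA
    have h1 : Sm X (Subtype.val '' A : Set (Pre X)) := cc_pre (ty := ty) _
      (by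
        rintro _ ⟨p, hp, rfl⟩
        exact p.2)
      (by
        rintro _ ⟨p, hp, rfl⟩ _ ⟨q, hq, rfl⟩ hne ⟨r, hr, h1, h2⟩
        exact hA p hp q hq (fun h => hne (by rw [h])) ⟨⟨r, hr⟩, h1, h2⟩)
    unfold Sm at h1 ⊢
    rwa [Cardinal.mk_image_eq Subtype.val_injective] at h1
  coll := by
    intro β hβ
    refine ⟨fun i v => RO.gen {p : PP X ty | β ∈ p.1.x ∧ i ∈ p.1.x ∧ p.1.c β i = v}, ?_, ?_, ?_⟩
    · intro i v v' hv
      refine le_antisymm ?_ bot_le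
      rintro p ⟨hp, hp'⟩
      exfalso
      obtain ⟨r, hr, h1, h2, h3⟩ := frame_mem.1 hp p le_rfl
      obtain ⟨r', hr', h1', h2', h3'⟩ := frame_mem.1 hp' r hr
      apply hv
      rw [← h3, ← h3']
      exact (hr'.c β h1 i h2).symm
    · intro i
      refine le_antisymm le_top ?_
      intro p _
      refine RO.mem_iSup.2 fun q _ => ?_
      obtain ⟨r, hr, hrq, h1⟩ := ex_pt q.2 β
      obtain ⟨r', hr', hrq', h2⟩ := ex_pt hr i
      exact ⟨⟨r', hr'⟩, Le.trans' q.2.1 hrq' hrq, r'.c β i, frame_self (hrq'.x h1) h2 rfl⟩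
    · intro v hv
      refine le_antisymm le_top ?_
      intro p _
      refine RO.mem_iSup.2 fun q _ => ?_
      obtain ⟨r, hr, hrq, h1, -, i, h2, h3, h4⟩ := ex_c q.2 hβ hv
      refine ⟨⟨r, hr⟩, hrq, i, ?_⟩
      exact frame_iSup (fun _ : i < w1 => RO.gen {p : PP X ty | β ∈ p.1.x ∧ i ∈ p.1.x ∧
        p.1.c β i = v}) h3 (frame_self h1 h2 h4)
  fn := hn_fn ty
  onto := hn_onto ty

end Pool.MP_d8f801_lc.SC
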