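import Pool.Agent.Lib.MP_d8f801_lc.SC.N.Defs

/-!
# SC/N: the names are names; every name is coded (module N-Names)

* `hn_fn`: by cases: `ν < kk` or not (`hn_out`), `GoodName ty (ev ξ ν)` or not (`hn_bad`, `hn_bad'`; `⊥ < kk` by `bot_lt_kk`).
* `hn_onto`: let `ν < kk`. `D s := ∃ v, ⟨s, _⟩ ∈ (l ν v).carrier` (for conditions `s`) is dense because `⨆ v, l ν v = ⊤` (`RO.mem_iSup`); let `A` be a small predense antichain in it (`exists_predense`), and for `s ∈ A` let `v s` be such that `s ∈ l ν (v s)`; `y ν` is a code (`en_surj`,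
  `Sm.image`, `Ok.fitE`) of the set of the pairs `(s, v s)`, `s ∈ A`. Then `nmv ty (y ν) v = l ν v` for all `v`: `⊆`: if `p ∈ nmv ty (y ν) v` then densely below `p` there is `r ≤ s` with `s ∈ A`, `v s = v`, so `r ∈ l ν v` (`RO.down`), so `p ∈ l ν v` (`RO.reg`). `⊇`: let `p ∈ l ν v`, `q ≤ p`: `q` is compatible with some `s ∈ A`,
  let `r` be a common extension: `r ∈ l ν v ⊓ l ν (v s)`, so `v s = v` by `disj` (`RO.mem_bot`). So `GoodName ty (y ν)` by the properties of `l`, and for a code `ξ` of `y` (`Stg.ev_surj`) `hn ty ξ ν v = l ν v` for `ν < kk`; for other `ν` both are `⊥`.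
* `nmv_good`: a general fact used for this: see the statement.
* `hn_compl`: if `r ≤ q`, `r ∈ hn ty ξ γ v'` then `r ∈ hn ty ξ γ v ⊓ hn ty ξ γ v' = ⊥` (`RO.mem_compl`).
* `gn_val`: `y = ev ξ γ ∈ N'`. If `y` is not a good name take `v = ⊥` (`hn_bad`). If it is: `Gn` gives `τ` with `Le q τ`, `DciN`. First alternative: `q ∈ nmv ty y v` (`mem_nmv`). Second alternative: `Inc ty y τ`; `τ ∈ ⊤ = ⨆ v, nmv ty y v`, so there are `r ≤ τ`, `v` with `r ∈ nmv ty y v`, and `r' ≤ r`, `s` with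
  `(s, v) ∈ en y`, `Le r' s`: contradiction.
-/

set_option autoImplicit false

universe u

namespace Pool.MP_d8f801_lc.SC

open Cardinal Set Filter Pool.Agent.Lib.MP_4d8715_gt.KR

variable {X : Type u} [Stg X]

/-- a condition as an element of the poset -/
private abbrev Names_mk {ty : Bool} (p : Pre X) (h : Ok ty p) : PP X ty := ⟨p, h⟩

theorem hn_fn (ty : Bool) (ξ : X) : IsFnK (hn ty ξ) := by
  have hbk : (⊥ : X) < kk := lt_of_le_of_lt bot_le Stg.w1_lt
  refine ⟨fun ν v h => ?_, fun ν hν => ?_, fun ν v v' hv => ?_⟩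
  · by_cases hν : ν < kk
    · have hv : ¬ v < kk := fun h' => h ⟨hν, h'⟩
      by_cases hg : GoodName ty (ev ξ ν)
      · rw [hn_good hν hg]
        exact hg.bd v hv
      · refine hn_bad' hg ?_
        rintro rfl
        exact hv hbk
    · exact hn_out hν
  · by_cases hg : GoodName ty (ev ξ ν)
    · rw [← hg.tot]
      exact iSup_congr fun v => hn_good hν hg v
    · refine top_unique ?_
      rw [← hn_bad hν hg]
      exact le_iSup (hn ty ξ ν) ⊥
  · by_cases hν : ν < kk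
    · by_cases hg : GoodName ty (ev ξ ν)
      · rw [hn_good hν hg, hn_good hν hg]
        exact hg.disj v v' hv
      · by_cases h0 : v = ⊥
        · rw [hn_bad' hg (v := v') (fun h => hv (h0.trans h.symm)), inf_bot_eq]
        · rw [hn_bad' hg (v := v) h0, bot_inf_eq]
    · rw [hn_out hν, bot_inf_eq]

private theorem names_key {ty : Bool} {l : X → X → RO (PP X ty)} (hl : IsFnK l) {ν : X} (hν : ν < kk) :
    ∃ y : X, ∀ v, nmv ty y v = l ν v := by
  obtain ⟨A, hA1, hA2, -, hA4⟩ := exists_predense (X := X) (ty := ty)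
    (fun s => ∃ h : Ok ty s, ∃ v, Names_mk s h ∈ (l ν v).carrier) (by
      intro p hp
      have h1 : Names_mk p hp ∈ (⨆ v, l ν v).carrier := by
        rw [hl.tot ν hν]
        exact RO.mem_top _
      obtain ⟨r, hr, v, hv⟩ := RO.mem_iSup.1 h1 _ le_rfl
      exact ⟨r.1, r.2, hr, r.2, v, hv⟩)
  have hch : ∀ s, ∃ v, s ∈ A → ∃ h : Ok ty s, Names_mk s h ∈ (l ν v).carrier := by
    intro s
    by_cases hs : s ∈ A
    · obtain ⟨-, h, v, hv⟩ := hA2 s hs
      exact ⟨v, fun _ => ⟨h, hv⟩⟩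
    · exact ⟨⊥, fun h => (hs h).elim⟩
  choose vs hvs using hch
  obtain ⟨y, hy⟩ := en_surj (X := X) (A := (fun s => (s, vs s)) '' A) (Sm.image hA1 _) (by
    rintro z ⟨s, hs, rfl⟩
    exact (hA2 s hs).1.fitE)
  refine ⟨y, fun v => RO.ext (Set.ext fun p => ?_)⟩
  rw [mem_nmv]
  constructor
  · intro h
    refine (l ν v).reg p fun q hq => ?_
    obtain ⟨r, hr, s, h1, -, h3⟩ := h q hq
    rw [hy] at h1
    obtain ⟨s', hs', he⟩ := h1
    obtain ⟨rfl, rfl⟩ := Prod.mk.inj he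
    obtain ⟨h4, h5⟩ := hvs s' hs'
    exact ⟨r, hr, (l ν (vs s')).down _ h5 r h3⟩
  · intro hp q hq
    obtain ⟨s, hs, r, hr1, hr2, hr3⟩ := hA4 q.1 q.2
    obtain ⟨h4, h5⟩ := hvs s hs
    have h6 : Names_mk r hr1 ∈ (l ν (vs s)).carrier := (l ν (vs s)).down _ h5 _ hr3
    have h7 : Names_mk r hr1 ∈ (l ν v).carrier := (l ν v).down _ hp _ (le_trans (α := PP X ty) (b := q) hr2 hq)
    have h8 : vs s = v := by
      by_contra hne
      have h9 : Names_mk r hr1 ∈ (l ν (vs s) ⊓ l ν v).carrier := RO.mem_inf.2 ⟨h6, h7⟩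
      rw [hl.disj ν _ _ hne] at h9
      exact RO.mem_bot _ h9
    refine ⟨Names_mk r hr1, hr2, s, ?_, h4, hr3⟩
    rw [hy, ← h8]
    exact ⟨s, hs, rfl⟩

theorem hn_onto (ty : Bool) (l : X → X → RO (PP X ty)) (hl : IsFnK l) : ∃ ξ : X, hn ty ξ = l := by
  classical
  have hch : ∀ ν : X, ∃ y : X, ν < kk → ∀ v, nmv ty y v = l ν v := by
    intro ν
    by_cases hν : ν < kk
    · obtain ⟨y, hy⟩ := names_key hl hν
      exact ⟨y, fun _ => hy⟩
    · exact ⟨⊥, fun h => (hν h).elim⟩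
  choose f hf using hch
  obtain ⟨ξ, hξ⟩ := Stg.ev_surj f
  refine ⟨ξ, funext fun ν => funext fun v => ?_⟩
  by_cases hν : ν < kk
  · have h1 : ∀ v, nmv ty (ev ξ ν) v = l ν v := by
      rw [hξ ν hν]
      exact hf ν hν
    have hg : GoodName ty (ev ξ ν) := by
      refine ⟨?_, fun v v' hv => ?_, fun v hv => ?_⟩
      · rw [← hl.tot ν hν]
        exact iSup_congr h1
      · rw [h1, h1]
        exact hl.disj ν v v' hv
      · rw [h1]
        exact hl.bd ν v fun h => hv h.2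
    rw [hn_good hν hg, h1]
  · rw [hn_out hν, hl.bd ν v fun h => hν h.1]

theorem hn_compl {ty : Bool} {ξ γ v v' : X} {q : PP X ty} (h : q ∈ (hn ty ξ γ v).carrier) (hv : v' ≠ v) :
    q ∈ ((hn ty ξ γ v')ᶜ).carrier := by
  rw [RO.mem_compl]
  intro r hr hr'
  have h1 : r ∈ (hn ty ξ γ v' ⊓ hn ty ξ γ v).carrier := RO.mem_inf.2 ⟨hr', (hn ty ξ γ v).down q h r hr⟩
  rw [(hn_fn ty ξ).disj γ v' v hv] at h1
  exact RO.mem_bot _ h1

theorem gn_val {ty : Bool} {N' : Set X} (hb : ⊥ ∈ N') {q : PP X ty} (h : Gn ty N' q.1) {ξ γ : X} (hγ : γ < kk)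
    (hξ : ev ξ γ ∈ N') : ∃ v ∈ N', q ∈ (hn ty ξ γ v).carrier := by
  by_cases hg : GoodName ty (ev ξ γ)
  · obtain ⟨τ, h1, h2, h3⟩ := h _ hξ
    rcases h3 with ⟨s, v, h4, h5, h6, h7⟩ | h3
    · refine ⟨v, h6, ?_⟩
      rw [hn_good hγ hg, mem_nmv]
      intro q' hq'
      exact ⟨q', le_rfl, s, h4, h5.1, Le.trans' h5.1.fit (Le.trans' h1.1.fit hq' h2) h7⟩
    · exfalso
      have h4 : Names_mk τ h1.1 ∈ (⨆ v, nmv ty (ev ξ γ) v).carrier := by
        rw [hg.tot]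
        exact RO.mem_top _
      obtain ⟨r, hr, v, hv⟩ := RO.mem_iSup.1 h4 _ le_rfl
      obtain ⟨r', hr', s, h5, h6, h7⟩ := mem_nmv.1 hv r le_rfl
      exact h3 s v h5 h6 ⟨r'.1, r'.2, Le.trans' h1.1.fit hr' hr, h7⟩
  · refine ⟨⊥, hb, ?_⟩
    rw [hn_bad hγ hg]
    exact RO.mem_top _

end Pool.MP_d8f801_lc.SC
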