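import Pool.Agent.Lib.MP_d8f801_lc.SC.N.Names

/-!
# SC/N: operations on names (module N-Ops)

* `op_gen`: let `l ν w = ⨆ v, hn ty ξ ν v ⊓ RO.gen {p | dom p.1 v ∧ G p.1 v = w}` for `ν < kk`, `w < kk`, and `⊥` otherwise. `IsFnK l`: `tot`: below every condition `p` there is `p' ∈ hn ty ξ ν v` for some `v` (`hn_fn`), and `p'' ≤ p'` with `dom p'' v` (`hd`), `w = G p'' v < kk`. `disj`: if `p ∈ l ν w ⊓ l ν w'` then there are `p' ≤ p`, `v`, `v'` with `p' ∈ hn ty ξ ν v ⊓ hn ty ξ ν v'` (so `v = v'`)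
  and `dom p' v`, `G p' v = w`, `G p' v' = w'` (`hm`), so `w = w'`. `hn_onto`. For the conclusion: `γ < kk` since otherwise `hn ty ξ γ v = ⊥`.
* `op_F`: `op_gen` for `dom p v := α ∈ p.x ∧ v ∈ p.x`, `G p v := p.F α v` (`Fit.Fv`, `Stg.w1_lt`). `op_c`: `dom p v := i ∈ p.x ∧ v ∈ p.x`, `G p v := p.c v i` (`< kk` by `Fit.cv`: it is `⊥` or `< v < kk`).
* `op_id`: `hn_onto` for `l ν v = if ν = v ∧ ν < kk then ⊤ else ⊥`.
-/

set_option autoImplicit false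

universe u

namespace Pool.MP_d8f801_lc.SC

open Cardinal Set Filter Pool.Agent.Lib.MP_4d8715_gt.KR

variable {X : Type u} [Stg X]

open Classical in
/-- the name of the image -/
private noncomputable def Ops_l {ty : Bool} (dom : Pre X → X → Prop) (G : Pre X → X → X) (ξ : X) (ν w : X) :
    RO (PP X ty) :=
  if ν < kk ∧ w < kk then RO.gen {p | ∃ v, p ∈ (hn ty ξ ν v).carrier ∧ dom p.1 v ∧ G p.1 v = w} else ⊥

private theorem Ops_mem {ty : Bool} {dom : Pre X → X → Prop} {G : Pre X → X → X} {ξ ν w : X} {p : PP X ty}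
    (h : p ∈ (Ops_l (ty := ty) dom G ξ ν w).carrier) : (ν < kk ∧ w < kk) ∧ ∀ q, q ≤ p → ∃ r, r ≤ q ∧
      ∃ t, (∃ v, t ∈ (hn ty ξ ν v).carrier ∧ dom t.1 v ∧ G t.1 v = w) ∧ r ≤ t := by
  unfold Ops_l at h
  by_cases hc : ν < kk ∧ w < kk
  · rw [if_pos hc] at h
    exact ⟨hc, h⟩
  · rw [if_neg hc] at h
    exact (RO.mem_bot _ h).elim

private theorem Ops_mem' {ty : Bool} {dom : Pre X → X → Prop} {G : Pre X → X → X} {ξ ν v : X} {p : PP X ty}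
    (hν : ν < kk) (hb : ∀ p v, Ok ty p → dom p v → G p v < kk)
    (h : p ∈ (hn ty ξ ν v).carrier) (hd : dom p.1 v) : p ∈ (Ops_l (ty := ty) dom G ξ ν (G p.1 v)).carrier := by
  unfold Ops_l
  rw [if_pos ⟨hν, hb p.1 v p.2 hd⟩]
  exact fun q hq => ⟨q, le_rfl, p, ⟨v, h, hd, rfl⟩, hq⟩

theorem op_gen {ty : Bool} (dom : Pre X → X → Prop) (G : Pre X → X → X)
    (hd : ∀ p v, Ok ty p → ∃ q, Ok ty q ∧ Le q p ∧ dom q v)
    (hm : ∀ p q v, Ok ty p → Ok ty q → Le q p → dom p v → dom q v ∧ G q v = G p v)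
    (hb : ∀ p v, Ok ty p → dom p v → G p v < kk) (ξ : X) :
    ∃ η : X, ∀ γ v, ∀ q : PP X ty, q ∈ (hn ty ξ γ v).carrier → dom q.1 v → q ∈ (hn ty η γ (G q.1 v)).carrier := by
  have hl : IsFnK (Ops_l (ty := ty) dom G ξ) := by
    refine ⟨fun ν v h => ?_, fun ν hν => ?_, fun ν w w' hw => ?_⟩
    · unfold Ops_l
      rw [if_neg h]
    · refine top_unique ?_
      intro p _
      rw [RO.mem_iSup]
      intro q hq
      have h1 : q ∈ (⨆ v, hn ty ξ ν v).carrier := by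
        rw [(hn_fn ty ξ).tot ν hν]
        exact RO.mem_top _
      obtain ⟨r, hr, v, hv⟩ := RO.mem_iSup.1 h1 _ le_rfl
      obtain ⟨r', h2, h3, h4⟩ := hd r.1 v r.2
      obtain ⟨s, hs⟩ : ∃ s : PP X ty, s.1 = r' := ⟨⟨r', h2⟩, rfl⟩
      rw [← hs] at h3 h4
      have hsr : s ≤ r := h3
      exact ⟨s, hsr.trans hr, _, Ops_mem' hν hb ((hn ty ξ ν v).down _ hv s hsr) h4⟩
    · refine le_antisymm ?_ bot_le
      intro p hp
      obtain ⟨hp1, hp2⟩ := RO.mem_inf.1 hp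
      obtain ⟨-, h1⟩ := Ops_mem hp1
      obtain ⟨-, h2⟩ := Ops_mem hp2
      obtain ⟨r, hr, t, ⟨v, h3, h4, h5⟩, hrt⟩ := h1 p le_rfl
      obtain ⟨r', hr', t', ⟨v', h3', h4', h5'⟩, hrt'⟩ := h2 r hr
      exfalso
      have hrt2 : r' ≤ t := hr'.trans hrt
      have h6 : r' ∈ (hn ty ξ ν v).carrier := (hn ty ξ ν v).down _ h3 _ hrt2
      have h7 : r' ∈ (hn ty ξ ν v').carrier := (hn ty ξ ν v').down _ h3' _ hrt'
      have h8 : v = v' := by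
        by_contra hne
        have h9 := RO.mem_inf.2 ⟨h6, h7⟩
        rw [(hn_fn ty ξ).disj ν v v' hne] at h9
        exact RO.mem_bot _ h9
      subst h8
      apply hw
      rw [← h5, ← h5', ← (hm t.1 r'.1 v t.2 r'.2 hrt2 h4).2, ← (hm t'.1 r'.1 v t'.2 r'.2 hrt' h4').2]
  obtain ⟨η, hη⟩ := hn_onto ty _ hl
  refine ⟨η, fun γ v q hq hqd => ?_⟩
  have hγ : γ < kk := by
    by_contra hγ
    rw [hn_out hγ] at hq
    exact RO.mem_bot _ hq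
  rw [hη]
  exact Ops_mem' hγ hb hq hqd

private theorem Ops_ex2 {ty : Bool} {p : Pre X} (hp : Ok ty p) (α v : X) :
    ∃ q, Ok ty q ∧ Le q p ∧ (α ∈ q.x ∧ v ∈ q.x) := by
  obtain ⟨q, h1, h2, h3⟩ := ex_pt hp α
  obtain ⟨r, h4, h5, h6⟩ := ex_pt h1 v
  exact ⟨r, h4, Le.trans' hp.fit h5 h2, h5.x h3, h6⟩

theorem op_F (ty : Bool) (α ξ : X) : ∃ η : X, ∀ γ v, ∀ q : PP X ty, q ∈ (hn ty ξ γ v).carrier → α ∈ q.1.x → v ∈ q.1.x →
    q ∈ (hn ty η γ (q.1.F α v)).carrier := by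
  obtain ⟨η, h⟩ := op_gen (ty := ty) (fun p v => α ∈ p.x ∧ v ∈ p.x) (fun p v => p.F α v)
    (fun p v hp => Ops_ex2 hp α v) (fun p q v _ _ hqp hp => ⟨⟨hqp.x hp.1, hqp.x hp.2⟩, hqp.F α hp.1 v hp.2⟩)
    (fun p v hp _ => (hp.fit.Fv α v).trans Stg.w1_lt) ξ
  exact ⟨η, fun γ v q h1 h2 h3 => h γ v q h1 ⟨h2, h3⟩⟩

theorem op_c (ty : Bool) (i ξ : X) : ∃ η : X, ∀ γ v, ∀ q : PP X ty, q ∈ (hn ty ξ γ v).carrier → i ∈ q.1.x → v ∈ q.1.x →
    q ∈ (hn ty η γ (q.1.c v i)).carrier := by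
  obtain ⟨η, h⟩ := op_gen (ty := ty) (fun p v => i ∈ p.x ∧ v ∈ p.x) (fun p v => p.c v i)
    (fun p v hp => Ops_ex2 hp i v) (fun p q v _ _ hqp hp => ⟨⟨hqp.x hp.1, hqp.x hp.2⟩, hqp.c v hp.2 i hp.1⟩)
    (fun p v hp _ => by
      by_cases h0 : p.c v i = ⊥
      · show p.c v i < kk
        rw [h0]
        exact bot_lt_kk
      · obtain ⟨-, -, h1, -, h2⟩ := hp.fit.cv v i h0
        exact h2.trans h1) ξ
  exact ⟨η, fun γ v q h1 h2 h3 => h γ v q h1 ⟨h2, h3⟩⟩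

theorem op_id (X : Type u) [Stg X] (ty : Bool) : ∃ ξ : X, ∀ ν : X, ν < kk → hn ty ξ ν ν = ⊤ := by
  classical
  obtain ⟨ξ, hξ⟩ := hn_onto ty (fun ν v => if ν = v ∧ ν < kk then (⊤ : RO (PP X ty)) else ⊥) (by
    refine ⟨fun ν v h => ?_, fun ν hν => ?_, fun ν v v' hv => ?_⟩
    · show (if ν = v ∧ ν < kk then (⊤ : RO (PP X ty)) else ⊥) = ⊥
      refine if_neg ?_
      rintro ⟨rfl, h1⟩
      exact h ⟨h1, h1⟩
    · refine top_unique ?_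
      refine le_trans ?_ (le_iSup _ ν)
      show ⊤ ≤ (if ν = ν ∧ ν < kk then (⊤ : RO (PP X ty)) else ⊥)
      rw [if_pos ⟨rfl, hν⟩]
    · show (if ν = v ∧ ν < kk then (⊤ : RO (PP X ty)) else ⊥) ⊓ (if ν = v' ∧ ν < kk then (⊤ : RO (PP X ty)) else ⊥) = ⊥
      by_cases h1 : ν = v
      · rw [if_neg (c := ν = v' ∧ ν < kk) (fun h => hv (h1.symm.trans h.1)), inf_bot_eq]
      · rw [if_neg (c := ν = v ∧ ν < kk) (fun h => h1 h.1), bot_inf_eq])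
  refine ⟨ξ, fun ν hν => ?_⟩
  rw [hξ]
  exact if_pos ⟨rfl, hν⟩

end Pool.MP_d8f801_lc.SC
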