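import Pool.Agent.Lib.MP_d8f801_lc.SC.N.DecGn
import Pool.Agent.Lib.MP_d8f801_lc.SC.N.Ops
import Pool.Agent.Lib.MP_d8f801_lc.SC.G.Top

/-!
# SC/N: the negative part, type B (module N-NegB)

For club many `N`: `cd p ∈ N` (`club_mem`), `Gd ty N`, `exists_top`, `gn_dec`, `gn_pts`, `gn_F`, and `N` is closed under functions `(α, ξ) ↦ η` as in `op_F` and `(i, ξ) ↦ η` as in `op_c`, and contains a code `ι` as in `op_id`. `exists_top` gives `q ≤ p`, `Gn ty N q`, `N ∈ q.S`; `Dec (hn ty) N q`.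

* `neg_split` (type B): let `q' ≤ q`, `Pre1 .. γ q'`, `Pre1 .. γ' q'`, `ξ ξ' ∈ N`, `q' ∈ hn ξ γ v`, `q' ∈ hn ξ' γ' v'`, and suppose `∀ η ∈ N, q' ∈ (hn η γ' v)ᶜ` and `∀ η ∈ N, q' ∈ (hn η γ v')ᶜ`. Let `q'' ≤ q'` with `v v' ∈ q''.x` (`ex_pt`); `N ∈ q''.S`, `N ⊆ q''.x`. Claim: `v ∈ q''.b N`. Otherwise by `K` there is `α ∈ N` with
  `dl N ≤ q''.F α v =: w < w1`, `w ∉ N`; by `op_F` there is `η ∈ N` with `q'' ∈ hn η γ w`; this contradicts `Pre1 .. γ q'` (`RO.mem_compl`). In the same way `v' ∈ q''.b N`. `v, v' < kk` by `IsFnK.bd` (`hn_fn`; `q' ∉ ⊥`). If `v = v'`: `η = ξ'` contradicts `q' ∈ (hn ξ' γ' v)ᶜ`. If `v < v'`: by `Bok.b4` for `q''`, `N`, `γ := v'` there is `i < dl N` with `q''.c v' i = v`; `i ∈ N`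
  (`dl_sub`); by `op_c` for `i`, `ξ'` there is `η ∈ N` with `q'' ∈ hn η γ' v`: contradiction. If `v' < v`: `i < dl N` with `q''.c v i = v'`; `op_c` for `i`, `ξ`: `η ∈ N` with `q'' ∈ hn η γ v'`: contradiction.
-/

set_option autoImplicit false

universe u

namespace Pool.MP_d8f801_lc.SC

open Cardinal Set Filter Pool.Agent.Lib.MP_4d8715_gt.KR

private theorem negb_mem {X : Type u} [Stg X] {N : Set X} (hG : Gd true N)
    (hF : ∀ α ∈ N, ∀ ξ ∈ N, (op_F true α ξ).choose ∈ N) {q : PP X true} {r : Pre X} (hr : Ok true r)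
    (hrq : Le r q.1) (hNS : N ∈ r.S) {γ ξ v : X} (hp : Pre1 (hn true) N γ q) (hξ : ξ ∈ N)
    (hv : q ∈ (hn true ξ γ v).carrier) (hvx : v ∈ r.x) : v ∈ r.b N := by
  by_contra hcon
  have hcon2 : v ∉ r.reg true N := hcon
  obtain ⟨α, hα, hdl⟩ := hr.fit.K N hNS v hvx hcon2
  have hw : r.F α v < w1 := hr.fit.Fv α v
  have hwN : r.F α v ∉ N := fun h => absurd (hG.tr _ h hw) (not_lt.2 hdl)
  have h1 := (op_F true α ξ).choose_spec γ v ⟨r, hr⟩ ((hn true ξ γ v).down q hv ⟨r, hr⟩ hrq)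
    (hr.fit.Sx N hNS hα) hvx
  exact RO.mem_compl.1 (hp.2 _ (hF α hα ξ hξ) _ hw hwN) ⟨r, hr⟩ hrq h1

private theorem negb_lt {X : Type u} [Stg X] {N : Set X}
    (hc : ∀ i ∈ N, ∀ ξ ∈ N, (op_c true i ξ).choose ∈ N) {q : PP X true} {r : Pre X} (hr : Ok true r)
    (hrq : Le r q.1) (hNS : N ∈ r.S) {γ ξ v w : X} (hξ : ξ ∈ N)
    (hv : q ∈ (hn true ξ γ v).carrier) (hvb : v ∈ r.b N) (hwb : w ∈ r.b N) (hvk : v < kk)
    (hwv : w < v) (h : ∀ η ∈ N, q ∈ ((hn true η γ w)ᶜ).carrier) : False := by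
  obtain ⟨i, hi, hiw⟩ := ((hr.bok hNS).b4 v hvb hvk (fun h0 => not_lt_bot (h0 ▸ hwv)) w).1
    ⟨hwb, hwv⟩
  have hiN : i ∈ N := dl_sub hi
  have h1 := (op_c true i ξ).choose_spec γ v ⟨r, hr⟩ ((hn true ξ γ v).down q hv ⟨r, hr⟩ hrq)
    (hr.fit.Sx N hNS hiN) ((hr.bok hNS).bx hvb)
  rw [show r.c v i = w from hiw] at h1
  exact RO.mem_compl.1 (h _ (hc i hiN ξ hξ)) ⟨r, hr⟩ hrq h1

private theorem negb_kk {X : Type u} [Stg X] {γ ξ v : X} {q : PP X true}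
    (hv : q ∈ (hn true ξ γ v).carrier) : v < kk := by
  by_contra h
  rw [(hn_fn true ξ).bd γ v (fun h' => h h'.2)] at hv
  exact RO.mem_bot q hv

theorem neg_split (X : Type u) [Stg X] : NegSplit (hn (X := X) true) := by
  intro p
  filter_upwards [club_mem (cd p.1), gd_club true, exists_top true, gn_dec true,
    club_fn2 (fun α ξ : X => (op_F true α ξ).choose), club_fn2 (fun i ξ : X => (op_c true i ξ).choose)]
    with N h1 hG hT hD hF hc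
  obtain ⟨q, hq, hqp, hqN, hNS, -⟩ := hT p.1 ⟨p.2, h1⟩
  refine ⟨⟨q, hq⟩, hqp, hD ⟨q, hq⟩ hqN, ?_⟩
  intro q' hq' γ γ' hp1 hp1' ξ hξ v ξ' hξ' v' hv hv' hcon
  obtain ⟨hcon1, hcon2⟩ := hcon
  obtain ⟨q1, hq1, hq11, hq12⟩ := ex_pt q'.2 v
  obtain ⟨q2, hq2, hq21, hq22⟩ := ex_pt hq1 v'
  have hle' : Le q2 q'.1 := Le.trans' q'.2.fit hq21 hq11
  have hle : Le q2 q := Le.trans' hq.fit hle' hq'
  have hNx : N ⊆ q.x := hq.fit.Sx N hNS
  have hNS2 : N ∈ q2.S := (hle.S N hNx).2 hNS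
  have hvx : v ∈ q2.x := hq21.x hq12
  have hvb := negb_mem hG hF hq2 hle' hNS2 hp1 hξ hv hvx
  have hvb' := negb_mem hG hF hq2 hle' hNS2 hp1' hξ' hv' hq22
  have hk := negb_kk hv
  have hk' := negb_kk hv'
  rcases lt_trichotomy v v' with h | h | h
  · exact negb_lt hc hq2 hle' hNS2 hξ' hv' hvb' hvb hk' h hcon1
  · subst h
    exact RO.mem_compl.1 (hcon1 ξ' hξ') q' le_rfl hv'
  · exact negb_lt hc hq2 hle' hNS2 hξ hv hvb hvb' hk h hcon2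

end Pool.MP_d8f801_lc.SC
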