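import Pool.Agent.Lib.MP_d8f801_lc.SC.N.DecGn
import Pool.Agent.Lib.MP_d8f801_lc.SC.N.Ops
import Pool.Agent.Lib.MP_d8f801_lc.SC.G.Top

/-!
# SC/N: `SCC^cof` fails for both types
-/

set_option autoImplicit false

universe u

namespace Pool.MP_d8f801_lc.SC

open Cardinal Set Filter Pool.Agent.Lib.MP_4d8715_gt.KR

theorem neg_cof_gen (X : Type u) [Stg X] (ty : Bool) : NegCof (hn (X := X) ty) := by
  intro p
  obtain ⟨ι, hι⟩ := op_id X ty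
  choose f hf using fun α : X => op_F (X := X) ty α ι
  filter_upwards [club_mem (cd p.1), exists_top (X := X) ty, gn_dec (X := X) ty, gd_club (X := X) ty, club_fn f] with
    N hpN htop hdec hgd hfN
  obtain ⟨q, hq, hle, hg, hNS, hb⟩ := htop p.1 ⟨p.2, hpN⟩
  obtain ⟨Q, hQ⟩ : ∃ Q : PP X ty, Q.1 = q := ⟨⟨q, hq⟩, rfl⟩
  have hqP : Q ≤ p := pp_le.2 (by rw [hQ]; exact hle)
  have hNx : N ⊆ q.x := hq.fit.Sx N hNS
  have hsm : Sm X (Zr N ∩ Iio kk) := (sm_Zr hgd.ct).mono inter_subset_left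
  obtain ⟨β, hβ, hβ2⟩ := sm_bdd hsm inter_subset_right
  refine ⟨Q, hqP, hdec Q (by rw [hQ]; exact hg), β, hβ, fun γ hγ hβγ => ?_⟩
  have hγZ : γ ∉ Zr N := fun h => absurd (hβ2 γ ⟨h, hγ⟩) (not_lt.2 hβγ)
  rw [RO.mem_iSup]
  intro q' hq'
  obtain ⟨r, hr, hrq, hγr⟩ := ex_pt q'.2 γ
  obtain ⟨R, hR⟩ : ∃ R : PP X ty, R.1 = r := ⟨⟨r, hr⟩, rfl⟩
  have hrq' : Le r q := Le.trans' hq.fit hrq (by rw [← hQ]; exact pp_le.1 hq')
  have hNr : N ∈ r.S := (hrq'.S N hNx).2 hNS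
  have hNrx : N ⊆ r.x := hNx.trans hrq'.x
  have hreg : γ ∉ r.reg ty N := by
    cases ty with
    | false =>
      unfold Pre.reg
      rw [if_neg Bool.false_ne_true]
      exact hγZ
    | true =>
      unfold Pre.reg
      rw [if_pos rfl]
      intro h
      apply hγZ
      have hB := hr.bok hNr
      rw [hB.b2] at h
      refine hul_mono Subset.rfl ?_ h
      rintro ξ ⟨h1, h2⟩
      exact hB.b2' ξ h1 h2
  obtain ⟨α, hα, hd⟩ := hr.bas.K N hNr γ hγr hreg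
  refine ⟨R, pp_le.2 (by rw [hR]; exact hrq), f α, ?_⟩
  have h1 := hf α γ γ R (by rw [hι γ hγ]; exact RO.mem_top _) (by rw [hR]; exact hNrx hα) (by rw [hR]; exact hγr)
  rw [hR] at h1
  rw [RO.mem_iSup]
  intro q'' hq''
  refine ⟨q'', le_rfl, hfN α hα, ?_⟩
  rw [RO.mem_iSup]
  intro s hs
  refine ⟨s, le_rfl, r.F α γ, ?_⟩
  rw [RO.mem_iSup]
  intro s' hs'
  refine ⟨s', le_rfl, ⟨hr.bas.Fv α γ, fun h => ?_⟩, ?_⟩
  · exact absurd (hgd.tr _ h (hr.bas.Fv α γ)) (not_lt.2 hd)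
  · exact RO.down _ _ h1 _ (hs'.trans (hs.trans hq''))

end Pool.MP_d8f801_lc.SC
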