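import Pool.Agent.Lib.MP_d8f801_lc.SC.N.DecGn
import Pool.Agent.Lib.MP_d8f801_lc.SC.N.Ops
import Pool.Agent.Lib.MP_d8f801_lc.SC.G.Step
import Pool.Agent.Lib.MP_d8f801_lc.SC.G.Cand

/-!
# SC/N: the positive parts (module N-Pos)

* `pre1_of`: for `ξ ∈ N`, `v < w1`, `v ∉ N`: `ev ξ γ ∈ nx N γ ⊆ N'`; `gn_val` gives `v' ∈ N'` with `q ∈ hn ty ξ γ v'`; `v ≠ v'` because otherwise `v ∈ N'`, `v < w1`, so `v ∈ N`; `hn_compl`.
* `not_mem_ind`: `Ind N γ` implies `γ ∉ N` (`nx_below`: otherwise `γ < γ`).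
* `pos_scc` (type B). Let `p` satisfy `Dec (hn true) N p`; `dec_gn`: `p' ≤ p`, `Gn true N p'`. Case 1: there is `a ∈ AA N p'` with `p'.b a ≠ N`. `case1`: `Gn true (p'.b a) p'`, `N ⊆ p'.b a`. There is `γ ∈ p'.b a`, `γ < kk`, `γ ∉ N`: otherwise `p'.b a = hul a (p'.b a ∩ Iio kk) ⊆ N` (`Bok.b2`, `hul_sub`, `Gd.ev`). `pre1_of` with
  `N' = p'.b a`, `q = p'`. Case 2: `p'.b a = N` for all `a ∈ AA N p'`. `exists_cand` gives `γ`, `step` gives `q ≤ p'` with `Gn true (nx N γ) q`; `pre1_of` with `N' = nx N γ` (`ex_club`); `not_mem_ind`.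
-/

set_option autoImplicit false

universe u

namespace Pool.MP_d8f801_lc.SC

open Cardinal Set Filter Pool.Agent.Lib.MP_4d8715_gt.KR

theorem pre1_of {X : Type u} [Stg X] {ty : Bool} {N N' : Set X} (hb : ⊥ ∈ N') {γ : X} (hγ : γ < kk) (h : nx N γ ⊆ N')
    (hw : ∀ i ∈ N', i < w1 → i ∈ N) {q : PP X ty} (hq : Gn ty N' q.1) : Pre1 (hn ty) N γ q := by
  refine ⟨hγ, fun ξ hξ v hv hvN => ?_⟩
  obtain ⟨v', hv', hq'⟩ := gn_val hb hq hγ (h ⟨ξ, hξ, rfl⟩)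
  refine hn_compl hq' ?_
  rintro rfl
  exact hvN (hw v hv' hv)

theorem not_mem_ind {X : Type u} [Stg X] : ∀ᶠ N in club X, ∀ γ, Ind N γ → γ ∉ N := by
  filter_upwards [nx_below] with N hN γ hγ hmem
  exact lt_irrefl γ ((hN γ hγ).1 γ hmem hγ.1)

theorem pos_scc (X : Type u) [Stg X] : PosScc (hn (X := X) true) := by
  unfold PosScc
  filter_upwards [dec_gn (X := X) true, case1 (X := X), exists_cand (X := X) true, step (X := X) true,
    ex_club (X := X), not_mem_ind (X := X), gd_club (X := X) true, gd_nx (X := X) true] with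
    N hdec hc1 hcand hstep hex hnm hgd hgdnx p hp
  obtain ⟨p', hp', hgn⟩ := hdec p hp
  by_cases hc : ∀ a ∈ AA N p'.1, p'.1.b a = N
  · obtain ⟨γ, hγ⟩ := hcand p'.1 p'.2 hgn (fun _ => hc)
    obtain ⟨q, hq1, hq2, hq3⟩ := hstep γ p'.1 p'.2 hgn hγ (fun _ => hc)
    let q' : PP X true := ⟨q, hq1⟩
    have hqp : q' ≤ p' := hq2
    refine ⟨q', hqp.trans hp', γ, hnm γ hγ.ind, ?_⟩
    · exact pre1_of (hgdnx γ hγ.ind.1).b hγ.ind.1 subset_rfl (fun i hi hw => (hex γ hγ.ind).w i hw hi) hq3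
  · push Not at hc
    obtain ⟨a, ha, hne⟩ := hc
    obtain ⟨h1, h2, h3, h4⟩ := hc1 p'.1 p'.2 hgn a ha
    have hex' : ∃ γ ∈ p'.1.b a, γ < kk ∧ γ ∉ N := by
      by_contra hcon
      push Not at hcon
      apply hne
      refine subset_antisymm ?_ h2
      rw [(p'.2.bok ha.1).b2]
      exact hul_sub ha.2.1 (fun x hx => hcon x hx.1 hx.2) hgd.ev
    obtain ⟨γ, hγ, hγk, hγN⟩ := hex'
    exact ⟨p', hp', γ, hγN, pre1_of (h2 hgd.b) hγk (h3 γ hγ hγk) h4 h1⟩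

end Pool.MP_d8f801_lc.SC
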