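import Pool.Agent.Lib.MP_d8f801_lc.SC.N.Pos

/-!
# SC/N: the positive part, type A (module N-PosA)

* `pos_split` (type A). `dec_gn`, `exists_cand` (for `p'`): `γ`, `step`: `q₀ ≤ p'`, `Gn false (nx N γ) q₀`; `Gn false N q₀` (`Gn.mono`), `exists_cand` for `q₀`: `γ'`, `step`: `q ≤ q₀`, `Gn false (nx N γ') q`, and `Gn false (nx N γ) q` (`Gn.mono`). `pre1_of` twice. `γ ∉ nx N γ'`: `γ ∈ nx N γ ⊆ q₀.x` (`nx_sub`; `gn_pts` lifted by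
  `nx_lift`: `Gn ty (nx N γ) q₀ → nx N γ ⊆ q₀.x`), so if `γ ∈ nx N γ'` then `γ ∈ N` by `Cand.tr` for `q₀`, contradiction to `not_mem_ind`. `γ' ∉ nx N γ`: otherwise `γ' ∈ q₀.x`, and `γ' ∈ nx N γ'`, so `γ' ∈ N` by `Cand.tr`, contradiction. Let `ξ ∈ N` be the code of the identity (`op_id`, `club_choice`... or `club_mem` of a chosen code): `q ∈ hn ξ γ γ`, and for
  `ξ' ∈ N`: `gn_val` gives `v' ∈ nx N γ'` with `q ∈ hn ξ' γ' v'`, `v' ≠ γ`, `hn_compl`. The same with `γ`, `γ'` exchanged.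
-/

set_option autoImplicit false

universe u

namespace Pool.MP_d8f801_lc.SC

open Cardinal Set Filter Pool.Agent.Lib.MP_4d8715_gt.KR

theorem pos_split (X : Type u) [Stg X] : PosSplit (hn (X := X) false) := by
  obtain ⟨ξ0, hξ0⟩ := op_id X false
  unfold PosSplit
  filter_upwards [dec_gn (X := X) false, exists_cand (X := X) false, step (X := X) false, nx_sub (X := X),
    nx_lift (gn_pts (X := X) false), ex_club (X := X), not_mem_ind (X := X), club_mem ξ0,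
    gd_nx (X := X) false] with N h1 h2 h3 h4 h5 h6 h7 h8 h9 p hp
  obtain ⟨p', hp', hG⟩ := h1 p hp
  obtain ⟨γ, hγ⟩ := h2 p'.1 p'.2 hG (by intro h; cases h)
  obtain ⟨q0, hq0, hle0, hGn0⟩ := h3 γ p'.1 p'.2 hG hγ (by intro h; cases h)
  have hGN0 : Gn false N q0 := hG.mono hle0
  obtain ⟨γ', hγ'⟩ := h2 q0 hq0 hGN0 (by intro h; cases h)
  obtain ⟨q, hq, hle, hGn'⟩ := h3 γ' q0 hq0 hGN0 hγ' (by intro h; cases h)
  have hGn : Gn false (nx N γ) q := hGn0.mono hle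
  have hγk : γ < kk := hγ.ind.1
  have hγk' : γ' < kk := hγ'.ind.1
  obtain ⟨Q, hQ⟩ : ∃ Q : PP X false, Q.1 = q := ⟨⟨q, hq⟩, rfl⟩
  subst hQ
  have hn1 : γ ∉ nx N γ' := by
    intro hc
    exact h7 γ hγ.ind (hγ'.tr γ ((h5 γ hγk q0 hGn0).1 (h4 γ hγk).2) hc)
  have hn2 : γ' ∉ nx N γ := by
    intro hc
    exact h7 γ' hγ'.ind (hγ'.tr γ' ((h5 γ hγk q0 hGn0).1 hc) (h4 γ' hγk').2)
  have hb : ⊥ ∈ nx N γ := (h9 γ hγk).b
  have hb' : ⊥ ∈ nx N γ' := (h9 γ' hγk').b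
  have hqp : Q ≤ p :=
    pp_le.2 (Le.trans' p.2.fit (Le.trans' p'.2.fit hle hle0) (pp_le.1 hp'))
  refine ⟨Q, hqp, γ, γ',
    pre1_of (q := Q) hb hγk Subset.rfl (fun i hi hw => (h6 γ hγ.ind).w i hw hi) hGn,
    pre1_of (q := Q) hb' hγk' Subset.rfl (fun i hi hw => (h6 γ' hγ'.ind).w i hw hi) hGn', ?_, ?_⟩
  · refine ⟨ξ0, h8, γ, ?_, fun ξ' hξ' => ?_⟩
    · rw [hξ0 γ hγk]
      exact RO.mem_top _
    · obtain ⟨v', hv', hq'⟩ := gn_val (q := Q) hb' hGn' (ξ := ξ') hγk' ⟨ξ', hξ', rfl⟩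
      exact hn_compl hq' (fun hc => hn1 (hc ▸ hv'))
  · refine ⟨ξ0, h8, γ', ?_, fun ξ' hξ' => ?_⟩
    · rw [hξ0 γ' hγk']
      exact RO.mem_top _
    · obtain ⟨v', hv', hq'⟩ := gn_val (q := Q) hb hGn (ξ := ξ') hγk ⟨ξ', hξ', rfl⟩
      exact hn_compl hq' (fun hc => hn2 (hc ▸ hv'))

end Pool.MP_d8f801_lc.SC
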