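import Pool.Agent.Lib.MP_d8f801_lc.SC.N.Pos

/-!
# SC/N: `SCC` for type A
-/

set_option autoImplicit false

universe u

namespace Pool.MP_d8f801_lc.SC

open Cardinal Set Filter Pool.Agent.Lib.MP_4d8715_gt.KR

theorem pos_scc_A (X : Type u) [Stg X] : PosScc (hn (X := X) false) := by
  filter_upwards [dec_gn (X := X) false, exists_cand (X := X) false, step (X := X) false, gd_club (X := X) false,
    gd_nx (X := X) false, ex_club (X := X), not_mem_ind (X := X)] with N h1 h2 h3 h4 h5 h6 h7 p hp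
  obtain ⟨p', hp', hg⟩ := h1 p hp
  obtain ⟨γ, hγ⟩ := h2 p'.1 p'.2 hg (fun h => by cases h)
  obtain ⟨q, hq, hle, hgq⟩ := h3 γ p'.1 p'.2 hg hγ (fun h => by cases h)
  have hk : γ < kk := hγ.ind.1
  refine ⟨⟨q, hq⟩, le_trans (pp_le.2 hle) hp', γ, h7 γ hγ.ind, ?_⟩
  exact pre1_of (h5 γ hk).b hk Subset.rfl (fun i hi hw => (h6 γ hγ.ind).w i hw hi) hgq

end Pool.MP_d8f801_lc.SC
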